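import Pool.Agent.MVS.Stmts
import Pool.Agent.Helper5_RF.Cyl

/-!
# MVS row GBC: pointwise Gauss-Bonnet inequality (helper24, MP_33f2b9_gt)
-/

noncomputable section

open scoped ContDiff Topology RealInnerProductSpace
open Set

namespace Pool.Agent.MVS.H24

open Pool.Agent.RF Pool.Agent.MVS

theorem in3 (a b : E3) : ⟪a, b⟫ = a 0 * b 0 + a 1 * b 1 + a 2 * b 2 := by
  rw [PiLp.inner_apply, Fin.sum_univ_three]
  simp only [RCLike.inner_apply, conj_trivial]
  ring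

theorem cr0 (u v : E3) : cr u v 0 = u 1 * v 2 - u 2 * v 1 := rfl
theorem cr1 (u v : E3) : cr u v 1 = u 2 * v 0 - u 0 * v 2 := rfl
theorem cr2 (u v : E3) : cr u v 2 = u 0 * v 1 - u 1 * v 0 := rfl

/-- the determinant of three vectors -/
def d3 (a b c : E3) : ℝ := ⟪a, cr b c⟫

theorem d3_eq (a b c : E3) : d3 a b c = a 0 * (b 1 * c 2 - b 2 * c 1)
    + a 1 * (b 2 * c 0 - b 0 * c 2) + a 2 * (b 0 * c 1 - b 1 * c 0) := by
  rw [d3, in3, cr0, cr1, cr2]

theorem d3_map (L : E3 →ₗ[ℝ] E3) (a b c : E3) :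
    d3 (L a) (L b) (L c) = LinearMap.det L * d3 a b c := by
  have h := (EuclideanSpace.basisFun (Fin 3) ℝ).toBasis.det_comp L ![a, b, c]
  have key : ∀ p q s : E3, (EuclideanSpace.basisFun (Fin 3) ℝ).toBasis.det ![p, q, s]
      = d3 p q s := by
    intro p q s
    rw [Module.Basis.det_apply, Matrix.det_fin_three, d3_eq]
    simp [Module.Basis.toMatrix_apply]
    ring
  rw [key] at h
  rw [← h, ← key]
  congr 1
  funext i
  fin_cases i <;> rfl

/-- two tangential vectors with cross product `x` -/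
theorem exists_tang (x : E3) (hx : x ≠ 0) : ∃ u v : E3, ⟪x, u⟫ = (0 : ℝ) ∧ ⟪x, v⟫ = (0 : ℝ) ∧
    cr u v = x := by
  have h1 : ∃ e : E3, cr e x ≠ 0 := by
    by_contra hcon
    push Not at hcon
    apply hx
    have e0 := hcon (eb 0)
    have e1 := hcon (eb 1)
    have a1 := congrArg (fun z : E3 => z 1) e0
    have a2 := congrArg (fun z : E3 => z 2) e0
    have a0 := congrArg (fun z : E3 => z 2) e1
    simp only [cr1, cr2] at a0 a1 a2
    ext i
    fin_cases i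
    · simp [eb] at a0 ⊢
      linarith
    · simp [eb] at a2 ⊢
      linarith
    · simp [eb] at a1 ⊢
      linarith
  obtain ⟨e, he⟩ := h1
  set u := cr e x with hu
  have hxu : ⟪x, u⟫ = (0 : ℝ) := by
    rw [hu, in3, cr0, cr1, cr2]; ring
  have hN : ⟪u, u⟫ ≠ (0 : ℝ) := by
    rw [Ne, inner_self_eq_zero]; exact he
  refine ⟨u, (⟪u, u⟫)⁻¹ • cr x u, hxu, ?_, ?_⟩
  · rw [inner_smul_right]
    have hz : ∀ w : E3, ⟪x, cr x w⟫ = (0 : ℝ) := fun w => by rw [in3, cr0, cr1, cr2]; ring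
    rw [hz, mul_zero]
  · have h2 : cr u ((⟪u, u⟫)⁻¹ • cr x u) = (⟪u, u⟫)⁻¹ • cr u (cr x u) := by
      ext i
      fin_cases i <;> simp [cr0, cr1, cr2] <;> ring
    have h3 : cr u (cr x u) = ⟪u, u⟫ • x - ⟪x, u⟫ • u := by
      rw [in3, in3]
      ext i
      fin_cases i <;> simp [cr0, cr1, cr2] <;> ring
    rw [h2, h3, hxu, zero_smul, sub_zero, smul_smul, inv_mul_cancel₀ hN, one_smul]

/-- derivative of `x / |x|` in a tangential direction -/
theorem fderiv_unit (x u : E3) (hx : x ≠ 0) (hu : ⟪x, u⟫ = (0 : ℝ)) :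
    fderiv ℝ (fun y : E3 => ‖y‖⁻¹ • y) x u = ‖x‖⁻¹ • u := by
  have hn : ‖x‖ ≠ 0 := norm_ne_zero_iff.2 hx
  have h1 : HasFDerivAt (fun y : E3 => ‖y‖) (fderiv ℝ (fun y : E3 => ‖y‖) x) x :=
    ((contDiffAt_norm (𝕜 := ℝ) (n := 1) hx).differentiableAt (by norm_num)).hasFDerivAt
  have h2 : fderiv ℝ (fun y : E3 => ‖y‖) x u = 0 := by
    have h3 : fderiv ℝ (fun y : E3 => ‖y‖ ^ 2) x u = 2 * ⟪x, u⟫ := by
      have := (hasStrictFDerivAt_norm_sq x).hasFDerivAt.fderiv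
      rw [this]
      simp
    have h4 : fderiv ℝ (fun y : E3 => ‖y‖ ^ 2) x u
        = 2 * ‖x‖ * fderiv ℝ (fun y : E3 => ‖y‖) x u := by
      rw [(h1.pow 2).fderiv]
      simp
    rw [hu, mul_zero] at h3
    rw [h3] at h4
    rcases mul_eq_zero.1 h4.symm with h | h
    · exact absurd h (mul_ne_zero two_ne_zero hn)
    · exact h
  have h5 := ((hasDerivAt_inv hn).comp_hasFDerivAt x h1).smul (hasFDerivAt_id x)
  have h6 : fderiv ℝ (fun y : E3 => ‖y‖⁻¹ • y) x = _ := h5.fderiv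
  rw [h6]
  simp [h2]

/-- main algebra -/
theorem alg (ξ a b : E3) (hξ : ⟪ξ, ξ⟫ = (1 : ℝ)) :
    ⟪cr (cr a ξ) (cr b ξ), ξ⟫ = ⟪cr a b, ξ⟫ := by
  have h : ⟪cr (cr a ξ) (cr b ξ), ξ⟫ = ⟪ξ, ξ⟫ * ⟪cr a b, ξ⟫ := by
    simp only [in3, cr0, cr1, cr2]
    ring
  rw [h, hξ, one_mul]

theorem gbc (hSdf : SdfStatement) : GbcStatement := by
  intro h hh hsec A hA om hom hhom hax hcurv
  have hOm : IsOpen (Om (Fin 3)) := Pool.Agent.RF.H5.om_isOpen
  have hunit : ContDiffOn ℝ ∞ (fun y : E3 => ‖y‖⁻¹ • y) (Om (Fin 3)) := by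
    intro y hy
    have hy' : y ≠ 0 := hy
    exact (((contDiffAt_norm (𝕜 := ℝ) hy').inv (norm_ne_zero_iff.2 hy')).smul
      contDiffAt_id).contDiffWithinAt
  have homv : ∀ w : E3, ContDiffOn ℝ ∞ (fun y => om y w) (Om (Fin 3)) := fun w =>
    hom.clm_apply contDiffOn_const
  have hf : ∀ w : E3, ContDiffOn ℝ ∞ (fun y : E3 => (⟪om y w, ‖y‖⁻¹ • y⟫ : ℝ)) (Om (Fin 3)) :=
    fun w => (homv w).inner ℝ hunit
  let α : E3 → E3 := fun y => ∑ j, (⟪om y (eb j), ‖y‖⁻¹ • y⟫ : ℝ) • (eb j : E3)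
  have hαc : ∀ y j, α y j = ⟪om y (eb j), ‖y‖⁻¹ • y⟫ := by
    intro y j
    fin_cases j <;> simp [α, Fin.sum_univ_three, eb]
  have hαs : ContDiffOn ℝ ∞ α (Om (Fin 3)) :=
    ContDiffOn.sum fun j _ => (hf (eb j)).smul contDiffOn_const
  refine ⟨α, hαs, ?_, ?_⟩
  · intro c hc x hx
    have h1 : ‖c • x‖⁻¹ • (c • x) = ‖x‖⁻¹ • x := by
      rw [norm_smul, Real.norm_of_nonneg hc.le, smul_smul, mul_inv, mul_comm c⁻¹, mul_assoc,
        inv_mul_cancel₀ hc.ne', mul_one]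
    simp only [α]
    rw [Finset.smul_sum]
    refine Finset.sum_congr rfl fun j _ => ?_
    rw [h1, hhom c hc x hx, _root_.smul_apply, real_inner_smul_left, smul_smul]
  · intro x hx
    have hx0 : x ≠ 0 := hx
    have hr : 0 < ‖x‖ := norm_pos_iff.2 hx0
    obtain ⟨u, v, hxu, hxv, huv⟩ := exists_tang x hx0
    have hmem : Om (Fin 3) ∈ 𝓝 x := hOm.mem_nhds hx
    set ξ : E3 := ‖x‖⁻¹ • x with hξ
    have hξξ : ⟪ξ, ξ⟫ = (1 : ℝ) := by
      rw [hξ, real_inner_smul_left, real_inner_smul_right, real_inner_self_eq_norm_sq]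
      field_simp
    -- derivatives of alpha
    have hD : ∀ p w : E3, fderiv ℝ (fun y : E3 => (⟪om y w, ‖y‖⁻¹ • y⟫ : ℝ)) x p
        = ⟪fderiv ℝ (fun y => om y w) x p, ξ⟫
          + ⟪om x w, fderiv ℝ (fun y : E3 => ‖y‖⁻¹ • y) x p⟫ := by
      intro p w
      rw [fderiv_inner_apply ℝ (((homv w).contDiffAt hmem).differentiableAt (by simp))
        ((hunit.contDiffAt hmem).differentiableAt (by simp)), add_comm]
    have hlin : ∀ p w : E3, fderiv ℝ (fun y : E3 => (⟪om y w, ‖y‖⁻¹ • y⟫ : ℝ)) x p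
        = ∑ i, ∑ j, p i * w j * pdf α i j x := by
      intro p w
      have hpdf : ∀ i j, pdf α i j x
          = fderiv ℝ (fun y : E3 => (⟪om y (eb j), ‖y‖⁻¹ • y⟫ : ℝ)) x (eb i) := by
        intro i j
        have hαd : DifferentiableAt ℝ α x := (hαs.contDiffAt hmem).differentiableAt (by simp)
        have h1 : fderiv ℝ (fun y : E3 => (⟪om y (eb j), ‖y‖⁻¹ • y⟫ : ℝ)) x
            = (EuclideanSpace.proj j : E3 →L[ℝ] ℝ).comp (fderiv ℝ α x) := by
          have h2 : (fun y : E3 => (⟪om y (eb j), ‖y‖⁻¹ • y⟫ : ℝ))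
              = fun y => (EuclideanSpace.proj j : E3 →L[ℝ] ℝ) (α y) := by
            funext y
            exact (hαc y j).symm
          rw [h2]
          exact ((EuclideanSpace.proj j : E3 →L[ℝ] ℝ).hasFDerivAt.comp x hαd.hasFDerivAt).fderiv
        rw [h1]
        rfl
      have hw : (fun y : E3 => (⟪om y w, ‖y‖⁻¹ • y⟫ : ℝ))
          = fun y => ∑ j, w j * (⟪om y (eb j), ‖y‖⁻¹ • y⟫ : ℝ) := by
        funext y
        have hwe : w = ∑ j, w j • (eb j : E3) := by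
          ext i
          fin_cases i <;> simp [Fin.sum_univ_three, eb]
        conv_lhs => rw [hwe]
        rw [map_sum, sum_inner]
        refine Finset.sum_congr rfl fun j _ => ?_
        rw [map_smul, real_inner_smul_left]
      have hpe : p = ∑ i, p i • (eb i : E3) := by
        ext i
        fin_cases i <;> simp [Fin.sum_univ_three, eb]
      have hdj : ∀ j, DifferentiableAt ℝ
          (fun y : E3 => (⟪om y (eb j), ‖y‖⁻¹ • y⟫ : ℝ)) x := fun j =>
        ((hf (eb j)).contDiffAt hmem).differentiableAt (by simp)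
      rw [hw]
      have hsum : HasFDerivAt (fun y : E3 => ∑ j, w j * (⟪om y (eb j), ‖y‖⁻¹ • y⟫ : ℝ))
          (∑ j, w j • fderiv ℝ (fun y : E3 => (⟪om y (eb j), ‖y‖⁻¹ • y⟫ : ℝ)) x) x :=
        HasFDerivAt.fun_sum fun j _ => (hdj j).hasFDerivAt.const_mul (w j)
      rw [hsum.fderiv]
      rw [Finset.sum_comm]
      rw [_root_.sum_apply]
      refine Finset.sum_congr rfl fun j _ => ?_
      rw [_root_.smul_apply, smul_eq_mul]
      conv_lhs => rw [hpe]
      rw [map_sum, Finset.mul_sum]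
      refine Finset.sum_congr rfl fun i _ => ?_
      rw [map_smul, hpdf, smul_eq_mul]
      ring
    have hcurl : xcurl α x = fderiv ℝ (fun y : E3 => (⟪om y v, ‖y‖⁻¹ • y⟫ : ℝ)) x u
        - fderiv ℝ (fun y : E3 => (⟪om y u, ‖y‖⁻¹ • y⟫ : ℝ)) x v := by
      rw [hlin, hlin, xcurl]
      have e0 : x 0 = u 1 * v 2 - u 2 * v 1 := by rw [← cr0, huv]
      have e1 : x 1 = u 2 * v 0 - u 0 * v 2 := by rw [← cr1, huv]
      have e2 : x 2 = u 0 * v 1 - u 1 * v 0 := by rw [← cr2, huv]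
      rw [e0, e1, e2]
      simp only [Fin.sum_univ_three]
      ring
    -- the cross product term
    have hDu : fderiv ℝ (fun y : E3 => ‖y‖⁻¹ • y) x u = ‖x‖⁻¹ • u := fderiv_unit x u hx0 hxu
    have hDv : fderiv ℝ (fun y : E3 => ‖y‖⁻¹ • y) x v = ‖x‖⁻¹ • v := fderiv_unit x v hx0 hxv
    have hau := hax x hx u
    have hav := hax x hx v
    rw [← hξ, hDu] at hau
    rw [← hξ, hDv] at hav
    set a := om x u with ha
    set b := om x v with hb
    have hcross : ⟪cr a b, ξ⟫ = ‖x‖⁻¹ := by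
      rw [← alg ξ a b hξξ, hau, hav]
      have h1 : cr (-(‖x‖⁻¹ • u)) (-(‖x‖⁻¹ • v)) = (‖x‖⁻¹ * ‖x‖⁻¹) • cr u v := by
        ext i
        fin_cases i <;> simp [cr0, cr1, cr2] <;> ring
      rw [h1, huv, hξ, real_inner_smul_left, real_inner_smul_right, real_inner_self_eq_norm_sq]
      field_simp
    set Ω : E3 := fderiv ℝ (fun y => om y v) x u - fderiv ℝ (fun y => om y u) x v + cr a b with hΩ
    have hΩξ : ⟪Ω, ξ⟫ = xcurl α x - ‖x‖⁻¹ := by
      rw [hcurl, hD, hD, hDu, hDv, hΩ, inner_add_left, inner_sub_left, hcross]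
      have e1 : ⟪b, ‖x‖⁻¹ • u⟫ = ‖x‖⁻¹ := by
        have : ‖x‖⁻¹ • u = - cr a ξ := by rw [hau, neg_neg]
        rw [this, ← hcross]
        simp only [in3, cr0, cr1, cr2, PiLp.neg_apply]
        ring
      have e2 : ⟪a, ‖x‖⁻¹ • v⟫ = - ‖x‖⁻¹ := by
        have : ‖x‖⁻¹ • v = - cr b ξ := by rw [hav, neg_neg]
        rw [this, ← hcross]
        simp only [in3, cr0, cr1, cr2, PiLp.neg_apply]
        ring
      rw [e1, e2]
      ring
    -- the curvature
    have hR := hcurv x hx u v v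
    rw [← hΩ] at hR
    have hAx : A x x = ξ := hA.radial x hx
    have hxu' : h x x u = 0 := by rw [hh.radial x hx u, hxu, zero_div]
    have hxv' : h x x v = 0 := by rw [hh.radial x hx v, hxv, zero_div]
    have hξu : ⟪ξ, A x u⟫ = (0 : ℝ) := by rw [← hAx, hA.ortho x hx, hxu']
    have hξv : ⟪ξ, A x v⟫ = (0 : ℝ) := by rw [← hAx, hA.ortho x hx, hxv']
    set d := LinearMap.det ((A x : E3 →L[ℝ] E3) : E3 →ₗ[ℝ] E3) with hd
    have hdpos : 0 < d := hA.det x hx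
    have hdet : d3 ξ (A x u) (A x v) = d * ‖x‖ ^ 2 := by
      have h1 := d3_map ((A x : E3 →L[ℝ] E3) : E3 →ₗ[ℝ] E3) x u v
      simp only [ContinuousLinearMap.coe_coe] at h1
      rw [hAx, ← hd] at h1
      rw [h1, d3, huv, real_inner_self_eq_norm_sq]
    -- A u × A v = (d |x|^2) ξ
    have hpar : cr (A x u) (A x v) = (d * ‖x‖ ^ 2) • ξ := by
      rw [← hdet]
      have h1 : cr (A x u) (A x v) = ⟪ξ, ξ⟫ • cr (A x u) (A x v) := by rw [hξξ, one_smul]
      rw [h1, d3]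
      have h2 : ⟪ξ, ξ⟫ • cr (A x u) (A x v) - ⟪ξ, cr (A x u) (A x v)⟫ • ξ
          = ⟪ξ, A x u⟫ • cr ξ (A x v) - ⟪ξ, A x v⟫ • cr ξ (A x u) := by
        simp only [in3]
        ext i
        fin_cases i <;> simp [cr0, cr1, cr2] <;> ring
      rw [hξu, hξv, zero_smul, zero_smul, sub_zero] at h2
      exact sub_eq_zero.1 h2
    have hsc := hsec x hx u v
    rw [← hA.ortho x hx, ← hA.ortho x hx u u, ← hA.ortho x hx v v, ← hA.ortho x hx u v, hR] at hsc
    have hl : ⟪cr Ω (A x v), A x u⟫ = - ⟪Ω, cr (A x u) (A x v)⟫ := by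
      simp only [in3, cr0, cr1, cr2]
      ring
    have hgr : ⟪A x u, A x u⟫ * ⟪A x v, A x v⟫ - ⟪A x u, A x v⟫ ^ 2
        = ⟪cr (A x u) (A x v), cr (A x u) (A x v)⟫ := by
      simp only [in3, cr0, cr1, cr2]
      ring
    have hk1 : ∀ k : ℝ, ⟪Ω, k • ξ⟫ = k * (xcurl α x - ‖x‖⁻¹) := fun k => by
      rw [← hΩξ]; exact real_inner_smul_right Ω ξ k
    have hk2 : ∀ k : ℝ, ⟪k • ξ, k • ξ⟫ = k * k := fun k => by
      have e1 : ⟪k • ξ, k • ξ⟫ = k * (k * ⟪ξ, ξ⟫) := by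
        rw [real_inner_smul_left]
        exact congrArg (fun z : ℝ => k * z) (real_inner_smul_right ξ ξ k)
      rw [e1, hξξ, mul_one]
    rw [hl, hgr, hpar, hk1, hk2] at hsc
    have hdr : 0 < d * ‖x‖ ^ 2 := by positivity
    have hfin : ‖x‖⁻¹ - xcurl α x ≤ d * ‖x‖ ^ 2 := by
      nlinarith
    -- sd (h x) = d
    have hsd : sd (h x) = d := by
      have h1 : h x = (del (Fin 3)).bilinearComp (A x) (A x) := by
        ext1 p
        ext1 q
        rw [ContinuousLinearMap.bilinearComp_apply, del_apply, hA.ortho x hx]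
      have h2 := ((hSdf (Fin 3)).2.1 (del (Fin 3)) (A x))
      rw [h1, h2, ← hd, abs_of_pos hdpos]
      have h3 : sd (del (Fin 3)) = 1 := by
        have h4 : gm (del (Fin 3)) = 1 := by
          ext i j
          rw [gm, Matrix.of_apply, del_apply, Matrix.one_apply]
          simp [eb, EuclideanSpace.inner_single_left]
        rw [sd, h4, Matrix.det_one, Real.sqrt_one]
      rw [h3, mul_one]
    rw [hsd, mul_comm]
    exact hfin

end Pool.Agent.MVS.H24
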